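import Pool.Agent.Helper42_ASE.CGB
import Pool.Agent.Helper20_PP.Nls
import Pool.Agent.Helper75_PP.Quo

/-!
# Squad ASE, row TGG: the inertial group of the comparison datum
-/

open scoped BigOperators

set_option autoImplicit false

noncomputable section

namespace Pool.Agent.PP.SE.H42

open Pool.Agent.Helper51_AWC Pool.Agent.Helper79_WRA Pool.Agent.PP Pool.Agent.PP.KF
open Pool.Agent.PP.K9 Pool.Agent.PP.K9.H97 Pool.Agent.PP.H75 Pool.Agent.PP.T3 Pool.Agent.PP.SO
open Pool.Agent.PP.SD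

attribute [local instance] Ideal.Quotient.field

section basic

variable {V₀ S G : Type} [CommGroup V₀] [Finite V₀] [Group S] [Finite S] [Group G] [Finite G]
  {ℓ : ℕ} [Fact ℓ.Prime] {M : Ideal (integralClosure ℤ ℂ)} [M.IsMaximal]
  {φ : S →* MulAut V₀} {θ : S → FF M} {κ : S → ℂ} {d : ℕ}
  {π : G →* V₀ ⋊[φ] S} {j : V₀ ⋊[φ] S →* G}

theorem inl_inj' : Function.Injective (SemidirectProduct.inl : V₀ →* V₀ ⋊[φ] S) :=
  SemidirectProduct.inl_injective

/-- the elements which normalise the defect group -/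
theorem norm_j (hG : Cg ℓ φ π j) (hcj : ∀ y v, j y * iG j v * (j y)⁻¹ = iG j (φ y.right v))
    {x : G} (hx : x ∈ Subgroup.normalizer ((iG j).range : Set G)) : j (π x) = x := by
  have hpi : ∀ v, π (iG j v) = SemidirectProduct.inl v := fun v => hG.sec _
  have h1 : π (x * (j (π x))⁻¹) = 1 := by rw [map_mul, map_inv, hG.sec, mul_inv_cancel]
  have h2 : x * (j (π x))⁻¹ = 1 := by
    refine hG.fix _ h1 fun v => ?_
    have h3 := hcj (π x)⁻¹ v
    rw [map_inv, inv_inv] at h3
    have h4 : x * iG j (φ ((π x)⁻¹).right v) * x⁻¹ ∈ (iG j).range :=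
      (Subgroup.mem_normalizer_iff.1 hx _).1 ⟨_, rfl⟩
    obtain ⟨w, hw⟩ := h4
    have h5 : x * (j (π x))⁻¹ * iG j v * (x * (j (π x))⁻¹)⁻¹ = iG j w := by
      rw [hw, ← h3]
      group
    have h6 : v = w := by
      have h7 := congrArg π h5
      rw [map_mul, map_mul, map_inv, h1, inv_one, mul_one, one_mul, hpi, hpi] at h7
      exact SemidirectProduct.inl_injective h7
    rw [← h6] at h5
    exact (mul_inv_eq_iff_eq_mul.1 h5).symm
  exact (mul_inv_eq_one.1 h2).symm

theorem conj_top (cen : CenStmt) (hq : Fq ℓ V₀ φ.range) (hG : Cg ℓ φ π j) (y : V₀ ⋊[φ] S) {x : G}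
    (hx : x ∈ CG j (⊤ : Subgroup V₀)) : j y * x * (j y)⁻¹ ∈ CG j (⊤ : Subgroup V₀) := by
  obtain ⟨h1, h2⟩ := mem_top cen hq hG hx
  rw [← h1, ← map_mul, ← map_inv, ← map_mul]
  apply top_mem cen hq hG
  rw [SemidirectProduct.mul_right, SemidirectProduct.mul_right, SemidirectProduct.inv_right, map_mul,
    map_mul, map_inv, h2, mul_one, mul_inv_cancel]

/-- the elements of the image of `j` are in the inertial group -/
theorem j_mem (cen : CenStmt) (hq : Fq ℓ V₀ φ.range) (hG : Cg ℓ φ π j)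
    (hcj : ∀ y v, j y * iG j v * (j y)⁻¹ = iG j (φ y.right v)) (hcl : IsCl (eR φ θ))
    (y : V₀ ⋊[φ] S) : j y ∈ Tg (BG φ θ d π j).i.range (BG φ θ d π j).g := by
  classical
  refine ⟨?_, ?_⟩
  · change j y ∈ Subgroup.normalizer ((iG j).range : Set G)
    rw [Subgroup.mem_normalizer_iff]
    intro h
    constructor
    · rintro ⟨v, rfl⟩
      rw [hcj]
      exact ⟨_, rfl⟩
    · rintro ⟨w, hw⟩
      refine ⟨φ (y⁻¹).right w, ?_⟩
      rw [← hcj y⁻¹ w, hw, map_inv, inv_inv]
      group
  · intro x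
    change (if j y * x * (j y)⁻¹ ∈ CG j ⊤ then eR φ θ (π (j y * x * (j y)⁻¹)) else 0) =
      if x ∈ CG j ⊤ then eR φ θ (π x) else 0
    have h1 : j y * x * (j y)⁻¹ ∈ CG j (⊤ : Subgroup V₀) ↔ x ∈ CG j (⊤ : Subgroup V₀) := by
      constructor
      · intro h
        have h2 := conj_top cen hq hG y⁻¹ h
        rw [map_inv, inv_inv] at h2
        have e : (j y)⁻¹ * (j y * x * (j y)⁻¹) * j y = x := by group
        rwa [e] at h2
      · exact conj_top cen hq hG y
    by_cases hx : x ∈ CG j (⊤ : Subgroup V₀)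
    · rw [if_pos hx, if_pos (h1.2 hx), map_mul, map_mul, map_inv, hG.sec, hcl]
    · rw [if_neg hx, if_neg fun h => hx (h1.1 h)]

end basic

theorem tgg (cen : CenStmt) (bre : BreStmt) : TggStmt := by
  intro ℓ _ M _ hM V₀ S G _ _ _ _ _ _ φ θ κ d π j hq hθ hG
  classical
  have hℓ : ℓ.Prime := Fact.out
  have hF : GoodF ℓ (FF M) := H50.fld ℓ Fact.out M hM
  obtain ⟨hinj, -, hcj, -⟩ := cen ℓ V₀ S G φ π j hq hG
  obtain ⟨hcl, -, -⟩ := bre ℓ M hM V₀ S φ θ κ d hq hθ
  refine ⟨fun x => ⟨fun hx => ⟨π x, norm_j hG hcj hx.1⟩, ?_⟩, fun E₁ hE₁ => ?_⟩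
  · rintro ⟨y, rfl⟩
    exact j_mem cen hq hG hcj hcl y
  · have hTE : ∀ x, x ∈ TE (BG φ θ d π j) E₁ ↔ ∃ y, j y = x ∧ φ y.right ∈ E₁ := by
      intro x
      constructor
      · rintro ⟨hx, σ, hσ, h⟩
        have h1 := norm_j hG hcj hx.1
        refine ⟨π x, h1, ?_⟩
        have h2 : φ (π x).right = σ := by
          apply MulEquiv.ext
          intro v
          apply hinj
          rw [← hcj, h1]
          exact h v
        rw [h2]
        exact hσ
      · rintro ⟨y, rfl, hy⟩
        exact ⟨j_mem cen hq hG hcj hcl y, φ y.right, hy, hcj y⟩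
    refine ⟨hTE, ?_⟩
    have hp1 : ∀ t : TE (BG φ θ d π j) E₁, j (π t) = t ∧ φ (π t).right ∈ E₁ := by
      intro t
      obtain ⟨y, hy, hy2⟩ := (hTE t).1 t.2
      have h1 : π (t : G) = y := by rw [← hy, hG.sec]
      rw [h1]
      exact ⟨hy, hy2⟩
    let p : TE (BG φ θ d π j) E₁ →* E₁.comap φ :=
      ((SemidirectProduct.rightHom.comp π).comp (TE (BG φ θ d π j) E₁).subtype).codRestrict
        (E₁.comap φ) fun t => (hp1 t).2
    have hpv : ∀ t, ((p t : E₁.comap φ) : S) = (π t).right := fun t => rfl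
    have hp : Function.Surjective p := by
      intro s
      refine ⟨⟨j ⟨1, s⟩, (hTE _).2 ⟨_, rfl, s.2⟩⟩, Subtype.ext ?_⟩
      rw [hpv]
      change (π (j ⟨1, s⟩)).right = s
      rw [hG.sec]
    have hk : IsPGroup ℓ p.ker := by
      rintro ⟨t, ht⟩
      refine ⟨1, ?_⟩
      apply Subtype.ext
      apply Subtype.ext
      have h1 : (π (t : G)).right = 1 := by
        rw [← hpv]
        have h2 : p t = 1 := ht
        rw [h2]
        rfl
      have h2 : (t : G) = iG j (π (t : G)).left := by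
        rw [← (hp1 t).1]
        change j (π (t : G)) = j (SemidirectProduct.inl (π (j (π (t : G)))).left)
        rw [hG.sec]
        congr 1
        exact SemidirectProduct.ext rfl h1
      change (t : G) ^ ℓ ^ 1 = 1
      rw [pow_one, h2, ← map_pow, hq.ex, map_one]
    have hpush : push p (fun t : TE (BG φ θ d π j) E₁ => (BG φ θ d π j).g t) =
        fun t : E₁.comap φ => θ t := by
      funext s
      unfold push
      have hx₀ : j ⟨1, s⟩ ∈ TE (BG φ θ d π j) E₁ := (hTE _).2 ⟨_, rfl, s.2⟩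
      rw [finsum_eq_single _ (⟨j ⟨1, s⟩, hx₀⟩ : TE (BG φ θ d π j) E₁)]
      · have h1 : p ⟨j ⟨1, s⟩, hx₀⟩ = s := by
          apply Subtype.ext
          rw [hpv]
          change (π (j ⟨1, s⟩)).right = s
          rw [hG.sec]
        rw [finsum_eq_if, if_pos h1]
        change (if j ⟨1, s⟩ ∈ CG j ⊤ then eR φ θ (π (j ⟨1, s⟩)) else 0) = θ s
        by_cases h2 : φ (s : S) = 1
        · rw [if_pos (top_mem cen hq hG h2), hG.sec]
          exact if_pos rfl
        · rw [if_neg, hθ.bx.supp _ h2]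
          intro h3
          have h4 := (mem_top cen hq hG h3).2
          rw [hG.sec] at h4
          exact h2 h4
      · intro x hx
        by_cases h1 : p x = s
        · rw [finsum_eq_if, if_pos h1]
          change (if (x : G) ∈ CG j ⊤ then eR φ θ (π x) else 0) = 0
          by_cases h2 : (x : G) ∈ CG j (⊤ : Subgroup V₀)
          · rw [if_pos h2]
            unfold eR
            rw [if_neg]
            intro h3
            apply hx
            apply Subtype.ext
            rw [← (hp1 x).1]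
            congr 1
            refine SemidirectProduct.ext h3 ?_
            rw [← h1]
            rfl
          · rw [if_neg h2]
        · rw [finsum_eq_if, if_neg h1]
    have h := cnt_push H20.nls hF hp hk (fun t : TE (BG φ θ d π j) E₁ => (BG φ θ d π j).g t)
    rw [hpush] at h
    exact h

end Pool.Agent.PP.SE.H42
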