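import Pool.Agent.ASE.Stmts9

/-!
# Squad ASE, row SDG: the comparison datum
-/

open scoped BigOperators

set_option autoImplicit false

noncomputable section

namespace Pool.Agent.PP.SE.H42

open Pool.Agent.Helper51_AWC Pool.Agent.Helper79_WRA Pool.Agent.PP Pool.Agent.PP.KF
open Pool.Agent.PP.K9 Pool.Agent.PP.K9.H97 Pool.Agent.PP.H75 Pool.Agent.PP.T3 Pool.Agent.PP.SO
open Pool.Agent.PP.SD

attribute [local instance] Ideal.Quotient.field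

section basic

variable {V₀ S G : Type} [CommGroup V₀] [Group S] [Group G] {φ : S →* MulAut V₀}
  {π : G →* V₀ ⋊[φ] S} {j : V₀ ⋊[φ] S →* G}

/-- the local block on the centraliser -/
theorem b_eq {F : Type} [Field F] (θ : S → F) (d : ℕ) (W : Subgroup V₀) :
    (fun t : (BG φ θ d π j).C W => (BG φ θ d π j).b W t) = fun t : CG j W => eR φ θ (π t) := by
  funext t
  exact if_pos t.2

theorem st_rw {E₀ : Subgroup (MulAut V₀)} {W : Subgroup V₀} (h : Rw E₀ W) : St E₀ W = ⊥ := by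
  rw [Subgroup.eq_bot_iff_forall]
  rintro σ ⟨h1, h2⟩
  exact h.2 σ h1 h2

theorem comap_rw {W : Subgroup V₀} (h : Rw φ.range W) :
    (St φ.range W).comap φ = φ.ker := by
  rw [st_rw h]
  rfl

end basic

theorem sdg (sbg : SbgStmt) (cen : CenStmt) (blg : BlgStmt) (chz : ChzStmt) : SdgStmt := by
  intro ℓ _ M _ hM V₀ S G _ _ _ _ _ _ φ θ κ d π j hq hθ hG
  have hℓ : ℓ.Prime := Fact.out
  obtain ⟨-, hK, -, hc⟩ := cen ℓ V₀ S G φ π j hq hG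
  obtain ⟨-, -, hB⟩ := blg ℓ M hM V₀ S G φ θ κ d π j hq hθ hG
  obtain ⟨-, hZ⟩ := chz ℓ M hM V₀ S φ θ κ d hq hθ
  have hU : ∀ W, Rw φ.range W → (BG φ θ d π j).U W = KW π j W := by
    intro W hW
    obtain ⟨-, -, -, -, h5, -⟩ := hc W
    obtain ⟨-, -, -, -, h5', -, -, h8', -⟩ := hc ⊤
    rw [comap_rw hW] at h5
    rw [h8', hK, mul_one] at h5'
    have hl0 : (ℓ : ℚ) ≠ 0 := Nat.cast_ne_zero.2 hℓ.ne_zero
    have hk0 : (Nat.card φ.ker : ℚ) ≠ 0 := Nat.cast_ne_zero.2 Nat.card_pos.ne'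
    have hd0 : (d : ℚ) ≠ 0 := Nat.cast_ne_zero.2 hθ.dp.ne'
    unfold Bk.U
    change (((1 : ℤ) : ℚ) * ((Nat.card (CG j W) : ℕ) : ℚ) * (d : ℚ)) /
      (((Nat.card (CG j (⊤ : Subgroup V₀)) : ℕ) : ℚ) * (d : ℚ)) = _
    rw [h5, h5']
    push_cast
    field_simp
  refine ⟨⟨sbg ℓ M hM V₀ S G φ θ κ d π j hq hθ hG, ?_, fun W _ => Or.inl rfl, ?_⟩, hU⟩
  · intro W hW
    refine ⟨hθ.dp, ?_⟩
    rw [b_eq]
    intro χ hχ
    obtain ⟨-, -, h3, h4, -⟩ := hc W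
    rw [comap_rw hW] at h3
    obtain ⟨ψ, -, h6, rfl⟩ := (hB (CG j W) h4 φ.ker le_rfl h3).2.2 χ hχ
    rw [hZ] at h6
    obtain ⟨lam, hlam, h7⟩ := h6
    have h8 := congrFun h7 1
    change ψ (π (1 : G)) = (d : ℂ)
    rw [map_one]
    have h9 : ψ (1 : V₀ ⋊[φ] S) = lam 1 * κ 1 := h8
    rw [h9, hlam.1, one_mul, hθ.kd]
  · intro W hW
    rw [hU W hW]
    obtain ⟨-, -, -, -, -, -, -, -, -, q, hq1, hq2⟩ := hc W
    exact ⟨q, hq1, hq2⟩

end Pool.Agent.PP.SE.H42
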