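import Pool.Agent.ASE.Stmts9
import Pool.Agent.Helper42_ASE.SDG

/-!
# Squad ASE: the comparison group, lemmas
-/

open scoped BigOperators

set_option autoImplicit false

noncomputable section

namespace Pool.Agent.PP.SE.H42

open Pool.Agent.Helper51_AWC Pool.Agent.Helper79_WRA Pool.Agent.PP Pool.Agent.PP.KF
open Pool.Agent.PP.K9 Pool.Agent.PP.K9.H97 Pool.Agent.PP.H75 Pool.Agent.PP.T3 Pool.Agent.PP.SO
open Pool.Agent.PP.SD

attribute [local instance] Ideal.Quotient.field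

section basic

variable {V₀ S G : Type} [CommGroup V₀] [Finite V₀] [Group S] [Finite S] [Group G] [Finite G]
  {ℓ : ℕ} [Fact ℓ.Prime] {φ : S →* MulAut V₀} {π : G →* V₀ ⋊[φ] S} {j : V₀ ⋊[φ] S →* G}

/-- the elements of the centraliser of the defect group -/
theorem mem_top (cen : CenStmt) (hq : Fq ℓ V₀ φ.range) (hG : Cg ℓ φ π j) {x : G}
    (hx : x ∈ CG j (⊤ : Subgroup V₀)) : j (π x) = x ∧ φ (π x).right = 1 := by
  obtain ⟨-, hK, -, hc⟩ := cen ℓ V₀ S G φ π j hq hG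
  obtain ⟨h1, h2, -, -, -, -, -, h8, -⟩ := hc ⊤
  obtain ⟨h3, h4⟩ := h2 x hx
  have h5 : (π.ker ⊓ CG j (⊤ : Subgroup V₀) : Subgroup G) = ⊥ := Subgroup.card_eq_one.1 hK
  rw [h5, Subgroup.mem_bot] at h4
  refine ⟨(mul_inv_eq_one.1 h4).symm, ?_⟩
  have h6 : (π x).right ∈ (St φ.range (⊤ : Subgroup V₀)).comap φ := (h1 _).1 h3
  rw [h8] at h6
  exact h6

theorem top_mem (cen : CenStmt) (hq : Fq ℓ V₀ φ.range) (hG : Cg ℓ φ π j) {y : V₀ ⋊[φ] S}
    (hy : φ y.right = 1) : j y ∈ CG j (⊤ : Subgroup V₀) := by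
  obtain ⟨-, -, -, hc⟩ := cen ℓ V₀ S G φ π j hq hG
  obtain ⟨h1, -, -, -, -, -, -, h8, -⟩ := hc ⊤
  apply (h1 y).2
  have h6 : y.right ∈ (St φ.range (⊤ : Subgroup V₀)).comap φ := by
    rw [h8]
    exact hy
  exact h6

/-- the centraliser of the defect group -/
def topE (cen : CenStmt) (hq : Fq ℓ V₀ φ.range) (hG : Cg ℓ φ π j) :
    V₀ × φ.ker ≃ CG j (⊤ : Subgroup V₀) where
  toFun p := ⟨j ⟨p.1, p.2⟩, top_mem cen hq hG p.2.2⟩
  invFun x := ⟨(π x).left, ⟨(π x).right, (mem_top cen hq hG x.2).2⟩⟩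
  left_inv := by
    rintro ⟨v, s⟩
    have h := hG.sec ⟨v, s⟩
    refine Prod.ext ?_ (Subtype.ext ?_)
    · change (π (j ⟨v, s⟩)).left = v
      rw [h]
    · change (π (j ⟨v, s⟩)).right = s
      rw [h]
  right_inv := by
    rintro ⟨x, hx⟩
    exact Subtype.ext (mem_top cen hq hG hx).1

end basic

end Pool.Agent.PP.SE.H42
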