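import Pool.Agent.Helper42_ASE.CGB
import Pool.Agent.Helper79_ASO.WTHA

/-!
# Squad ASE, row VNU: the numbers `Vx`, `nu` of the comparison datum
-/

open scoped BigOperators

set_option autoImplicit false

noncomputable section

namespace Pool.Agent.PP.SE.H42

open Pool.Agent.Helper51_AWC Pool.Agent.Helper79_WRA Pool.Agent.PP Pool.Agent.PP.KF
open Pool.Agent.PP.K9 Pool.Agent.PP.K9.H97 Pool.Agent.PP.H75 Pool.Agent.PP.T3 Pool.Agent.PP.SO
open Pool.Agent.PP.SD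

attribute [local instance] Ideal.Quotient.field

/-- a sum over a subgroup -/
theorem sum_ext0 {G : Type} [Group G] (C : Subgroup G) (a : C → ℂ) (g : G → ℂ) :
    ∑ᶠ s : G, PP.ext0 C a s * g s = ∑ᶠ t : C, a t * g t := by
  classical
  have h1 : ∀ t : C, a t * g t = PP.ext0 C a t * g t := by
    intro t
    rw [PP.ext0, dif_pos t.2]
  rw [finsum_congr h1]
  have h2 : ∑ᶠ t : C, PP.ext0 C a (t : G) * g t = ∑ᶠ s ∈ (C : Set G), PP.ext0 C a s * g s :=
    finsum_set_coe_eq_finsum_mem (C : Set G) (f := fun s => PP.ext0 C a s * g s)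
  rw [h2]
  apply finsum_congr
  intro s
  by_cases hs : s ∈ C
  · rw [finsum_eq_if, if_pos]
    exact hs
  · rw [finsum_eq_if, if_neg (show ¬ s ∈ (C : Set G) from hs), PP.ext0, dif_neg hs, zero_mul]

section basic

variable {V₀ S G : Type} [CommGroup V₀] [Finite V₀] [Group S] [Finite S] [Group G] [Finite G]
  {ℓ : ℕ} [Fact ℓ.Prime] {M : Ideal (integralClosure ℤ ℂ)} [M.IsMaximal]
  {φ : S →* MulAut V₀} {θ : S → FF M} {κ : S → ℂ} {d : ℕ}
  {π : G →* V₀ ⋊[φ] S} {j : V₀ ⋊[φ] S →* G}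

/-- the characters of the local block of the defect group -/
theorem irr_top (cen : CenStmt) (blg : BlgStmt) (chz : ChzStmt)
    (hM : (ℓ : integralClosure ℤ ℂ) ∈ M) (hq : Fq ℓ V₀ φ.range) (hθ : Th ℓ M φ θ κ d)
    (hG : Cg ℓ φ π j) :
    IrrE M (fun t : CG j (⊤ : Subgroup V₀) => eR φ θ (π t)) =
      (fun lam : V₀ → ℂ => fun t : CG j (⊤ : Subgroup V₀) => lam (π t).left * κ (π t).right) ''
        lin V₀ := by
  obtain ⟨-, -, -, hc⟩ := cen ℓ V₀ S G φ π j hq hG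
  obtain ⟨-, -, hB⟩ := blg ℓ M hM V₀ S G φ θ κ d π j hq hθ hG
  obtain ⟨-, hZ⟩ := chz ℓ M hM V₀ S φ θ κ d hq hθ
  obtain ⟨-, -, h3, h4, -, -, -, h8, -⟩ := hc ⊤
  rw [h8] at h3
  obtain ⟨-, hB2, hB3⟩ := hB (CG j ⊤) h4 φ.ker le_rfl h3
  ext χ
  constructor
  · intro hχ
    obtain ⟨ψ, -, h6, rfl⟩ := hB3 χ hχ
    rw [hZ] at h6
    obtain ⟨lam, hlam, h7⟩ := h6
    refine ⟨lam, hlam, ?_⟩
    funext t
    have h9 : π t ∈ RS φ φ.ker := by
      change (π t).right ∈ φ.ker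
      exact (mem_top cen hq hG t.2).2
    exact (congrFun h7 ⟨π t, h9⟩).symm
  · rintro ⟨lam, hlam, rfl⟩
    exact hB2 (fun y => lam y.left * κ y.right) (by rw [hZ]; exact ⟨lam, hlam, rfl⟩)

theorem sum_lin (v : V₀) : ∑ᶠ lam ∈ lin V₀, lam v =
    open Classical in if v = 1 then (Nat.card V₀ : ℂ) else 0 := by
  classical
  have : Fintype (lin V₀) := Fintype.ofFinite _
  have h := SO.H79.lin_sum v
  rw [← finsum_set_coe_eq_finsum_mem (lin V₀) (f := fun lam => lam v), finsum_eq_sum_of_fintype, h]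

/-- the lift of the idempotent -/
theorem eh_top (cen : CenStmt) (blg : BlgStmt) (chz : ChzStmt)
    (hM : (ℓ : integralClosure ℤ ℂ) ∈ M) (hq : Fq ℓ V₀ φ.range) (hθ : Th ℓ M φ θ κ d)
    (hG : Cg ℓ φ π j) (p : V₀ × φ.ker) :
    eh M (fun t : CG j (⊤ : Subgroup V₀) => eR φ θ (π t)) (topE cen hq hG p) =
      open Classical in (Nat.card (CG j (⊤ : Subgroup V₀)) : ℂ)⁻¹ * ((d : ℂ) * κ (p.2 : S)⁻¹ *
        if p.1 = 1 then (Nat.card V₀ : ℂ) else 0) := by
  classical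
  obtain ⟨v, s⟩ := p
  unfold eh
  congr 1
  rw [irr_top cen blg chz hM hq hθ hG]
  have hinj : Set.InjOn (fun lam : V₀ → ℂ => fun t : CG j (⊤ : Subgroup V₀) =>
      lam (π t).left * κ (π t).right) (lin V₀) := by
    intro lam _ lam' _ h
    funext w
    have h1 := congrFun h (topE cen hq hG (w, 1))
    have h2 : π ((topE cen hq hG (w, 1) : CG j (⊤ : Subgroup V₀)) : G) = ⟨w, 1⟩ := hG.sec _
    change lam (π ((topE cen hq hG (w, 1) : CG j (⊤ : Subgroup V₀)) : G)).left * κ _ =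
      lam' (π ((topE cen hq hG (w, 1) : CG j (⊤ : Subgroup V₀)) : G)).left * κ _ at h1
    rw [h2] at h1
    refine mul_right_cancel₀ ?_ h1
    change κ 1 ≠ 0
    rw [hθ.kd]
    exact Nat.cast_ne_zero.2 hθ.dp.ne'
  rw [finsum_mem_image hinj]
  have h1 : π (((topE cen hq hG (v, s) : CG j (⊤ : Subgroup V₀))⁻¹ : CG j (⊤ : Subgroup V₀)) : G) =
      ⟨v⁻¹, (s : S)⁻¹⟩ := by
    have h2 : π ((topE cen hq hG (v, s) : CG j (⊤ : Subgroup V₀)) : G) = ⟨v, s⟩ := hG.sec _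
    rw [Subgroup.coe_inv, map_inv, h2]
    refine SemidirectProduct.ext ?_ rfl
    rw [SemidirectProduct.inv_left]
    have h3 : φ (s : S) = 1 := s.2
    change (φ (s : S)⁻¹) v⁻¹ = v⁻¹
    rw [map_inv φ, h3, inv_one]
    rfl
  have h4 : ∀ lam : V₀ → ℂ, lam ∈ lin V₀ →
      ((fun t : CG j (⊤ : Subgroup V₀) => lam (π t).left * κ (π t).right) 1 *
        (fun t : CG j (⊤ : Subgroup V₀) => lam (π t).left * κ (π t).right)
          (topE cen hq hG (v, s))⁻¹) = (d : ℂ) * κ (s : S)⁻¹ * lam v⁻¹ := by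
    intro lam hlam
    change lam (π ((1 : CG j (⊤ : Subgroup V₀)) : G)).left * κ (π ((1 : CG j (⊤ : Subgroup V₀)) : G)).right *
      (lam (π (((topE cen hq hG (v, s) : CG j (⊤ : Subgroup V₀))⁻¹ : CG j (⊤ : Subgroup V₀)) : G)).left *
        κ (π (((topE cen hq hG (v, s) : CG j (⊤ : Subgroup V₀))⁻¹ : CG j (⊤ : Subgroup V₀)) : G)).right) = _
    rw [h1, Subgroup.coe_one, map_one]
    change lam 1 * κ 1 * (lam v⁻¹ * κ (s : S)⁻¹) = _
    rw [hlam.1, hθ.kd]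
    ring
  have h5 := finsum_mem_congr (s := lin V₀) rfl h4
  refine h5.trans ?_
  have : Fintype (lin V₀) := Fintype.ofFinite _
  rw [← finsum_set_coe_eq_finsum_mem (lin V₀) (f := fun lam => (d : ℂ) * κ (s : S)⁻¹ * lam v⁻¹),
    finsum_eq_sum_of_fintype, ← Finset.mul_sum, SO.H79.lin_sum]
  congr 1
  by_cases hv : v = 1
  · rw [if_pos hv, if_pos (by rw [hv, inv_one])]
  · rw [if_neg hv, if_neg (fun h => hv (inv_eq_one.1 h))]

end basic

theorem vnu (cen : CenStmt) (blg : BlgStmt) (chz : ChzStmt) : VnuStmt := by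
  intro ℓ _ M _ hM V₀ S G _ _ _ _ _ _ φ θ κ d π j hq hθ hG χ f hχ
  classical
  have hℓ : ℓ.Prime := Fact.out
  have hd0 : (d : ℂ) ≠ 0 := Nat.cast_ne_zero.2 hθ.dp.ne'
  have hch : ∀ v : V₀, χ (iG j v) = (d : ℂ) * f v := by
    intro v
    have h1 := hχ v 1 (map_one φ)
    rw [hθ.kd] at h1
    exact h1
  have hch1 : χ 1 = (d : ℂ) * f 1 := by
    have h1 := hch 1
    rwa [map_one] at h1
  refine ⟨fun x => ?_, fun hf w => ?_⟩
  · obtain ⟨-, hK, -, hc⟩ := cen ℓ V₀ S G φ π j hq hG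
    obtain ⟨-, -, -, -, h5, -, -, h8, -⟩ := hc ⊤
    rw [h8, hK, mul_one] at h5
    obtain ⟨hsum, -⟩ := chz ℓ M hM V₀ S φ θ κ d hq hθ
    unfold Vx bh
    rw [b_eq]
    change (d : ℂ)⁻¹ * ∑ᶠ s : G, PP.ext0 (CG j ⊤) (eh M (fun t : CG j (⊤ : Subgroup V₀) =>
      eR φ θ (π t))) s * χ (iG j x * s) = f x
    rw [sum_ext0, ← finsum_comp_equiv (topE cen hq hG)]
    have h1 : ∀ p : V₀ × φ.ker, eh M (fun t : CG j (⊤ : Subgroup V₀) => eR φ θ (π t))
        (topE cen hq hG p) * χ (iG j x * (topE cen hq hG p : CG j (⊤ : Subgroup V₀))) =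
        (Nat.card (CG j (⊤ : Subgroup V₀)) : ℂ)⁻¹ * (d : ℂ) *
          ((if p.1 = 1 then (Nat.card V₀ : ℂ) * f (x * p.1) else 0) *
            (κ (p.2 : S)⁻¹ * κ (p.2 : S))) := by
      intro p
      rw [eh_top cen blg chz hM hq hθ hG]
      have h2 : iG j x * ((topE cen hq hG p : CG j (⊤ : Subgroup V₀)) : G) =
          j ⟨x * p.1, (p.2 : S)⟩ := by
        change j (SemidirectProduct.inl x) * j ⟨p.1, (p.2 : S)⟩ = _
        rw [← map_mul]
        congr 1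
        refine SemidirectProduct.ext ?_ ?_
        · rw [SemidirectProduct.mul_left]
          change x * (φ (1 : S)) p.1 = x * p.1
          rw [map_one]
          rfl
        · rw [SemidirectProduct.mul_right]
          change 1 * (p.2 : S) = p.2
          rw [one_mul]
      rw [h2, hχ _ _ p.2.2]
      split_ifs
      · ring
      · ring
    rw [finsum_congr h1]
    have : Fintype V₀ := Fintype.ofFinite _
    have : Fintype φ.ker := Fintype.ofFinite _
    rw [finsum_eq_sum_of_fintype, ← Finset.mul_sum, Fintype.sum_prod_type]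
    have h3 : ∑ v : V₀, ∑ s : φ.ker, (if v = 1 then (Nat.card V₀ : ℂ) * f (x * v) else 0) *
        (κ (s : S)⁻¹ * κ (s : S)) = (Nat.card V₀ : ℂ) * f x * Nat.card φ.ker := by
      rw [← hsum, finsum_eq_sum_of_fintype]
      rw [Finset.sum_eq_single (1 : V₀)]
      · rw [← Finset.mul_sum, if_pos rfl, mul_one]
      · intro v _ hv
        apply Finset.sum_eq_zero
        intro s _
        rw [if_neg hv, zero_mul]
      · intro h
        exact absurd (Finset.mem_univ _) h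
    have h4 : (∑ v : V₀, ∑ s : φ.ker, (if (v, s).1 = 1 then (Nat.card V₀ : ℂ) * f (x * (v, s).1) else 0) *
        (κ (((v, s) : V₀ × φ.ker).2 : S)⁻¹ * κ (((v, s) : V₀ × φ.ker).2 : S))) = 
        (Nat.card V₀ : ℂ) * f x * Nat.card φ.ker := h3
    rw [h4, h5, hq.cd]
    have hl0 : (ℓ : ℂ) ≠ 0 := Nat.cast_ne_zero.2 hℓ.ne_zero
    have hk0 : (Nat.card φ.ker : ℂ) ≠ 0 := Nat.cast_ne_zero.2 Nat.card_pos.ne'
    push_cast
    field_simp
  · change χ (iG j w) / χ 1 = f w / f 1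
    rw [hch, hch1, mul_div_mul_left _ _ hd0]

end Pool.Agent.PP.SE.H42
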